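import Pool.Agent.Helper75.LM.Defs
import Pool.Agent.Helper22.WC.Defs
import Pool.Agent.Helper93.EX.Defs

/-! # Project LMA (MP_fb29e9_nt, AlmostEveryLattice): asymptotic formulas for the moments of order `p < P` at the worst centre. Definitions -/

open MeasureTheory Real Set Filter Topology Metric
open scoped ENNReal NNReal

set_option autoImplicit false

namespace Pool.Agent.Helper92.LMA

open Pool.Agent.Helper22.AE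
open Pool.Agent.Helper22.AC (cntc ga)
open Pool.Agent.Helper22.WC (SupE LimS)
open Pool.Agent.Helper92.GC (dt tp sqa Tq)
open Pool.Agent.Helper92.DT (m12)
open Pool.Agent.Helper75.TW (m20 J20 Mm TB MomF F12)
open Pool.Agent.Helper75.GD (WJ LB)
open Pool.Agent.Helper92.LA (JJ Fb HL WL lcnt dl)
open Pool.Agent.Helper22.LP (Fr fk fdet hom LS wr Hf)
open Pool.Agent.Helper75.LM (Md d20 d12)
open Pool.Agent.Helper93.EX (Mx)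

/-- a finite sum of exponentials with nonnegative coefficients -/
def PDf (g : ℝ → ℂ) : Prop :=
  ∃ (n : ℕ) (w Φ : Fin n → ℝ), (∀ j, 0 ≤ w j) ∧ ∀ r, g r = ∑ j, ((w j : ℝ) : ℂ) * ee (r * Φ j)

/-- what is used of a density: domination by the interval around the origin, and the trivial bound -/
structure Dom (md : Fr → (ℝ × ℝ → ℝ) → ℝ → ℕ → ℝ) (q : ℕ) : Prop where
  dom : ∀ (f : Fr) (h : ℝ × ℝ → ℝ) (N : ℕ) (a Y : ℝ), 0 < Y → ∫ r in Icc a (a + Y), md f h r N ≤ 2 * ∫ r in Icc (-Y) Y, md f h r N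
  even : ∀ (f : Fr) (h : ℝ × ℝ → ℝ) (r : ℝ) (N : ℕ), md f h (-r) N = md f h r N
  triv : ∀ (f : Fr) (h : ℝ × ℝ → ℝ) (r : ℝ) (N : ℕ), 1 ≤ N → md f h r N ≤ (81 * (N : ℝ) ^ 2) ^ q
  lip : ∀ (f : Fr) (h h' : ℝ × ℝ → ℝ) (r : ℝ) (N : ℕ) (d : ℝ), 1 ≤ N → 0 ≤ d → (∀ k ∈ sqa N, |r * h (fk f k) - r * h' (fk f k)| ≤ d) →
    md f h r N ≤ md f h' r N + 7 * q * (81 * (N : ℝ) ^ 2) ^ q * d

/-- the moments for small frequencies, without loss in `X` -/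
def Low (J : Fr → (ℝ × ℝ → ℝ) → ℝ → ℕ → ℝ) (H : ℝ → ℝ) (α₀ : ℝ) (q : ℕ) (ν : ℝ) (f : Fr) : Prop :=
  ∀ e : ℝ, 0 < e → ∃ C : ℝ, 0 ≤ C ∧ ∀ p n : ℕ, n ≤ p → (2 : ℝ) ^ n ≤ ((2 : ℝ) ^ p) ^ ν → WJ J H α₀ p n f ≤ C * ((2 : ℝ) ^ p * ((2 : ℝ) ^ n) ^ ((q : ℝ) + e))

/-- the mean around the origin of the density at `α = 0`, up to `2 ^ (a n)` -/
noncomputable def Zn (md : Fr → (ℝ × ℝ → ℝ) → ℝ → ℕ → ℝ) (H : ℝ → ℝ) (a n : ℕ) (f : Fr) : ℝ :=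
  ((2 : ℝ) ^ (a * n))⁻¹ * ∫ r in Icc (-(2 : ℝ) ^ (a * n)) (2 ^ (a * n)), md f (hom (ga H 0)) r (2 ^ n)

/-- blocks of an oval with decay in `L ^ s` -/
def BlkP (H : ℝ → ℝ) (s : ℝ) : Prop :=
  ∃ (e2 u A : ℝ) (p₀ : ℕ), 0 < e2 ∧ 0 < u ∧ 0 ≤ A ∧ ∀ p n : ℕ, p₀ ≤ p → (2 : ℝ) ^ n ≤ ((2 : ℝ) ^ p) ^ (1 / 2 + e2) →
    ∃ G : ℝ → ℝ, Continuous G ∧ (∀ R, 0 ≤ G R) ∧
      (∀ R ∈ Icc ((2 : ℝ) ^ p) (2 * 2 ^ p), ∀ r : ℝ, |r - R| ≤ ((2 : ℝ) ^ p) ^ (-(1 / 2) : ℝ) → ∀ c : ℝ × ℝ,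
        ‖∑ k ∈ sqa (2 ^ n), ft (fun θ => r * H θ) k * ee (dt k c)‖ ≤ G R) ∧
      ∫ R in Icc ((2 : ℝ) ^ p) (2 * 2 ^ p), G R ^ s ≤ A * ((2 : ℝ) ^ p) ^ (1 + s / 2) * ((2 : ℝ) ^ n) ^ (-u)

/-- the tail of the frequencies at the worst centre is small in mean square -/
def TailS (H : ℝ → ℝ) : Prop :=
  ∀ η : ℝ, 0 < η → ∃ (n0 : ℕ) (X₀ : ℝ), 1 ≤ n0 ∧ 1 ≤ X₀ ∧ ∀ X : ℝ, X₀ ≤ X → ∃ V : ℝ → ℝ, IntegrableOn V (Icc X (2 * X)) ∧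
    (∀ R ∈ Icc X (2 * X), ∀ c : ℝ × ℝ, |cntc H c R - area H * R ^ 2 - sqrt R * Mx H (2 ^ n0) R c| ^ 2 ≤ V R) ∧ ∫ R in Icc X (2 * X), V R ≤ η * X ^ 2

/-- the moment of order `s` at the worst centre has the order `X ^ (1 + s / 2)` -/
def MomS (H : ℝ → ℝ) (s : ℝ) : Prop :=
  ∃ C : ℝ, ∀ X : ℝ, 1 ≤ X → ∫⁻ R in Icc X (2 * X), ⨆ c : ℝ × ℝ, ENNReal.ofReal (|cntc H c R - area H * R ^ 2| ^ s) ≤ ENNReal.ofReal (C * X ^ (1 + s / 2))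

end Pool.Agent.Helper92.LMA
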